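import Pool.Agent.Q86.PConv.Upper

set_option autoImplicit false

namespace Pool.Agent.Q86.PConv

open scoped ENNReal NNReal

variable {G : Type*} [Group G]

/-- finite-sum form of boundedness of the left convolution by `h ≥ 0` on `ℓ^p` -/
def FB (p : ℝ) (h : G → ℝ≥0) (C : ℝ≥0) : Prop :=
  ∀ (U V : Finset G) (X : G → ℝ≥0),
    ∑ u ∈ U, (∑ v ∈ V, h (u * v⁻¹) * X v) ^ p ≤ C * ∑ v ∈ V, X v ^ p

/-- `f` is a `p`-convolver -/
def Conv (p : ℝ) (f : G → ℂ) : Prop :=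
  ∃ C : ℝ, ∀ ξ : G →₀ ℂ,
    Summable (fun g : G => ‖∑ k ∈ ξ.support, f (g * k⁻¹) * ξ k‖ ^ p) ∧
    ∑' g : G, ‖∑ k ∈ ξ.support, f (g * k⁻¹) * ξ k‖ ^ p ≤ C * ∑ k ∈ ξ.support, ‖ξ k‖ ^ p

theorem FB.dual {p q : ℝ} (hpq : p.HolderConjugate q) {h : G → ℝ≥0} {C : ℝ≥0}
    (hF : FB p h C) : FB q (fun g => h g⁻¹) (C ^ (q / p)) := by
  intro V U Y
  have hp := hpq.pos
  have hq := hpq.symm.pos
  set Z : G → ℝ≥0 := fun v => ∑ u ∈ U, h (u * v⁻¹) * Y u with hZ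
  have e0 : ∑ v ∈ V, (∑ u ∈ U, h (v * u⁻¹)⁻¹ * Y u) ^ q = ∑ v ∈ V, Z v ^ q := by
    refine Finset.sum_congr rfl fun v _ => ?_
    simp [hZ]
  rw [e0]
  set S := ∑ v ∈ V, Z v ^ q with hS
  set T := ∑ u ∈ U, Y u ^ q with hT
  by_cases hS0 : S = 0
  · rw [hS0]; exact zero_le
  have hmul : (q - 1) * p = q := by
    have := hpq.symm.sub_one_mul_conj
    linarith
  have h1 : S = ∑ u ∈ U, Y u * ∑ v ∈ V, h (u * v⁻¹) * Z v ^ (q - 1) := by
    have : ∀ v ∈ V, Z v ^ q = ∑ u ∈ U, Y u * (h (u * v⁻¹) * Z v ^ (q - 1)) := by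
      intro v _
      have e1 : Z v ^ q = Z v * Z v ^ (q - 1) := by
        by_cases hz : Z v = 0
        · rw [hz, NNReal.zero_rpow hq.ne', zero_mul]
        · rw [show q = 1 + (q - 1) by ring, NNReal.rpow_add hz, NNReal.rpow_one]
          ring_nf
      rw [e1]
      conv_lhs => rw [hZ]
      simp only
      rw [Finset.sum_mul]
      refine Finset.sum_congr rfl fun u _ => ?_
      ring
    rw [hS, Finset.sum_congr rfl this, Finset.sum_comm]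
    refine Finset.sum_congr rfl fun u _ => ?_
    rw [Finset.mul_sum]
  have h2 := NNReal.inner_le_Lp_mul_Lq U Y
    (fun u => ∑ v ∈ V, h (u * v⁻¹) * Z v ^ (q - 1)) hpq.symm
  rw [← h1] at h2
  have h3 := hF U V (fun v => Z v ^ (q - 1))
  have h4 : ∑ v ∈ V, (Z v ^ (q - 1)) ^ p = S := by
    rw [hS]
    refine Finset.sum_congr rfl fun v _ => ?_
    rw [← NNReal.rpow_mul, hmul]
  rw [h4] at h3
  have h5 : S ≤ T ^ (1 / q) * (C * S) ^ (1 / p) :=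
    h2.trans (mul_le_mul' le_rfl (NNReal.rpow_le_rpow h3 (by positivity)))
  have h6 : S ^ q ≤ T * (C * S) ^ (q / p) := by
    have := NNReal.rpow_le_rpow h5 hq.le
    rw [NNReal.mul_rpow, ← NNReal.rpow_mul, ← NNReal.rpow_mul,
      show 1 / q * q = 1 by field_simp, NNReal.rpow_one, show 1 / p * q = q / p by ring] at this
    exact this
  have hqp : q / p = q - 1 := by
    rw [div_eq_iff hp.ne', hmul]
  have h7 : S ^ q = S * S ^ (q - 1) := by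
    rw [show q = 1 + (q - 1) by ring, NNReal.rpow_add hS0, NNReal.rpow_one]
    ring_nf
  rw [NNReal.mul_rpow, h7, hqp] at h6
  rw [hqp]
  have hpos : 0 < S ^ (q - 1) := NNReal.rpow_pos (pos_iff_ne_zero.mpr hS0)
  have h8 : S * S ^ (q - 1) ≤ (C ^ (q - 1) * T) * S ^ (q - 1) := by
    calc _ ≤ _ := h6
      _ = _ := by ring
  exact le_of_mul_le_mul_right h8 hpos

theorem conv_of_FB {p : ℝ} (hp : 0 < p) {h : G → ℝ≥0} {C : ℝ≥0} (hF : FB p h C) :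
    Conv p (fun g => ((h g : ℝ) : ℂ)) := by
  refine ⟨C, fun ξ => ?_⟩
  have key : ∀ U : Finset G, ∑ g ∈ U, ‖∑ k ∈ ξ.support, ((h (g * k⁻¹) : ℝ) : ℂ) * ξ k‖ ^ p
      ≤ C * ∑ k ∈ ξ.support, ‖ξ k‖ ^ p := by
    intro U
    have h1 := hF U ξ.support (fun v => ‖ξ v‖₊)
    have h2 : ∑ u ∈ U, (∑ v ∈ ξ.support, (h (u * v⁻¹) : ℝ) * ‖ξ v‖) ^ p
        ≤ (C : ℝ) * ∑ v ∈ ξ.support, ‖ξ v‖ ^ p := by
      have h1' := NNReal.coe_le_coe.mpr h1
      push_cast at h1'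
      exact h1'
    refine le_trans (Finset.sum_le_sum fun g _ => ?_) h2
    refine Real.rpow_le_rpow (norm_nonneg _) ?_ hp.le
    refine (norm_sum_le _ _).trans (le_of_eq ?_)
    refine Finset.sum_congr rfl fun k _ => ?_
    rw [norm_mul]
    simp
  have hs : Summable (fun g : G => ‖∑ k ∈ ξ.support, ((h (g * k⁻¹) : ℝ) : ℂ) * ξ k‖ ^ p) :=
    summable_of_sum_le (fun g => by positivity) key
  exact ⟨hs, hs.tsum_le_of_sum_le key⟩

open Classical in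
theorem FB_of_conv {p : ℝ} (hp : 0 < p) {h : G → ℝ≥0}
    (hC : Conv p (fun g => ((h g : ℝ) : ℂ))) : ∃ C, FB p h C := by
  obtain ⟨C, hC⟩ := hC
  refine ⟨C.toNNReal, fun U V X => ?_⟩
  let ξ : G →₀ ℂ := Finsupp.onFinset V (fun v => if v ∈ V then ((X v : ℝ) : ℂ) else 0)
    (fun v hv => by by_contra hc; simp [hc] at hv)
  have hξ : ∀ v, ξ v = if v ∈ V then ((X v : ℝ) : ℂ) else 0 := fun v => rfl
  have hsub : ξ.support ⊆ V := Finsupp.support_onFinset_subset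
  obtain ⟨hs, hle⟩ := hC ξ
  have e1 : ∀ g : G, ‖∑ k ∈ ξ.support, ((h (g * k⁻¹) : ℝ) : ℂ) * ξ k‖ ^ p
      = ((∑ v ∈ V, (h (g * v⁻¹) : ℝ) * X v)) ^ p := by
    intro g
    have : ∑ k ∈ ξ.support, ((h (g * k⁻¹) : ℝ) : ℂ) * ξ k
        = (((∑ v ∈ V, (h (g * v⁻¹) : ℝ) * X v : ℝ)) : ℂ) := by
      rw [Finset.sum_subset hsub]
      · push_cast
        refine Finset.sum_congr rfl fun v hv => ?_
        rw [hξ, if_pos hv]
      · intro v _ hv
        rw [Finsupp.notMem_support_iff.mp hv, mul_zero]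
    rw [this, Complex.norm_real, Real.norm_of_nonneg]
    exact Finset.sum_nonneg fun v _ => by positivity
  have e2 : ∑ k ∈ ξ.support, ‖ξ k‖ ^ p = ∑ v ∈ V, (X v : ℝ) ^ p := by
    rw [Finset.sum_subset hsub]
    · refine Finset.sum_congr rfl fun v hv => ?_
      rw [hξ, if_pos hv]; simp
    · intro v _ hv
      rw [Finsupp.notMem_support_iff.mp hv, norm_zero, Real.zero_rpow hp.ne']
  rw [e2] at hle
  have h1 : ∑ u ∈ U, ((∑ v ∈ V, (h (u * v⁻¹) : ℝ) * X v)) ^ p ≤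
      C * ∑ v ∈ V, (X v : ℝ) ^ p := by
    refine le_trans ?_ hle
    have := hs.sum_le_tsum U (fun g _ => by positivity)
    refine le_trans (le_of_eq ?_) this
    exact Finset.sum_congr rfl fun g _ => (e1 g).symm
  have h2 : ∑ u ∈ U, ((∑ v ∈ V, (h (u * v⁻¹) : ℝ) * X v)) ^ p ≤
      (C.toNNReal : ℝ) * ∑ v ∈ V, (X v : ℝ) ^ p :=
    h1.trans (mul_le_mul_of_nonneg_right (Real.le_coe_toNNReal C)
      (Finset.sum_nonneg fun v _ => by positivity))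
  exact_mod_cast h2

theorem FB_of_tsum {p : ℝ} (hp : 0 < p) {h : G → ℝ≥0} {C : ℝ≥0}
    (H : ∀ X : G → ℝ≥0∞, ∑' u, (∑' v, (h (u * v⁻¹) : ℝ≥0∞) * X v) ^ p ≤ C * ∑' v, X v ^ p) :
    FB p h C := by
  classical
  intro U V X
  have h1 := H (fun v => if v ∈ V then (X v : ℝ≥0∞) else 0)
  have e1 : ∀ u, (∑' v, (h (u * v⁻¹) : ℝ≥0∞) * (if v ∈ V then (X v : ℝ≥0∞) else 0))
      = ((∑ v ∈ V, h (u * v⁻¹) * X v : ℝ≥0) : ℝ≥0∞) := by
    intro u
    rw [tsum_eq_sum (s := V)]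
    · push_cast
      exact Finset.sum_congr rfl fun v hv => by rw [if_pos hv]
    · intro v hv
      rw [if_neg hv, mul_zero]
  have e2 : ∑' v, (if v ∈ V then (X v : ℝ≥0∞) else 0) ^ p = ((∑ v ∈ V, X v ^ p : ℝ≥0) : ℝ≥0∞) := by
    rw [tsum_eq_sum (s := V)]
    · push_cast
      exact Finset.sum_congr rfl fun v hv => by
        rw [if_pos hv, ENNReal.coe_rpow_of_nonneg _ hp.le]
    · intro v hv
      rw [if_neg hv, ENNReal.zero_rpow_of_pos hp]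
  rw [e2] at h1
  have h2 : ((∑ u ∈ U, (∑ v ∈ V, h (u * v⁻¹) * X v) ^ p : ℝ≥0) : ℝ≥0∞)
      ≤ ((C * ∑ v ∈ V, X v ^ p : ℝ≥0) : ℝ≥0∞) := by
    refine le_trans ?_ (h1.trans (le_of_eq (by push_cast; rfl)))
    refine le_trans (le_of_eq ?_) (ENNReal.sum_le_tsum U)
    rw [ENNReal.ofNNReal_finsetSum]
    refine Finset.sum_congr rfl fun u _ => ?_
    rw [e1, ENNReal.coe_rpow_of_nonneg _ hp.le]
  exact_mod_cast h2

/-- the convolver attached to weights on `a^s x_i` -/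
noncomputable def PingPong.h (pp : PingPong G) (d : ℕ × ℕ → ℝ≥0) : G → ℝ≥0 :=
  Function.extend pp.w d 0

theorem PingPong.w_inj (pp : PingPong G) : Function.Injective pp.w := by
  rintro ⟨s, i⟩ ⟨t, j⟩ h
  obtain ⟨h1, h2⟩ := pp.inj1 s t i j h
  simp [h1, h2]

theorem PingPong.h_w (pp : PingPong G) (d : ℕ × ℕ → ℝ≥0) (j : ℕ × ℕ) : pp.h d (pp.w j) = d j :=
  pp.w_inj.extend_apply _ _ _

theorem PingPong.tsum_h (pp : PingPong G) (d : ℕ × ℕ → ℝ≥0) (X : G → ℝ≥0∞) (u : G) :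
    ∑' v, (pp.h d (u * v⁻¹) : ℝ≥0∞) * X v = ∑' j, (d j : ℝ≥0∞) * X ((pp.w j)⁻¹ * u) := by
  classical
  have h1 : ∀ y, (pp.h d y : ℝ≥0∞) = ∑' j, if pp.w j = y then (d j : ℝ≥0∞) else 0 := by
    intro y
    by_cases hy : ∃ j, pp.w j = y
    · obtain ⟨j0, rfl⟩ := hy
      rw [pp.h_w, tsum_eq_single j0]
      · simp
      · intro j hj
        rw [if_neg]
        intro hc
        exact hj (pp.w_inj hc)
    · rw [PingPong.h, Function.extend_apply' _ _ _ hy]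
      push Not at hy
      rw [ENNReal.tsum_eq_zero.mpr fun j => if_neg (hy j)]
      simp
  calc _ = ∑' v, ∑' j, (if pp.w j = u * v⁻¹ then (d j : ℝ≥0∞) else 0) * X v := by
        congr 1; ext v
        rw [h1, ENNReal.tsum_mul_right]
    _ = ∑' j, ∑' v, (if pp.w j = u * v⁻¹ then (d j : ℝ≥0∞) else 0) * X v := ENNReal.tsum_comm
    _ = _ := by
        congr 1; ext j
        rw [tsum_eq_single ((pp.w j)⁻¹ * u)]
        · rw [if_pos (by group)]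
        · intro v hv
          rw [if_neg, zero_mul]
          intro hc
          apply hv
          rw [hc]; group

theorem PingPong.FB_h (pp : PingPong G) {p q : ℝ} (hpq : p.HolderConjugate q)
    (e v : ℕ × ℕ → ℝ≥0) (hv : ∀ i, ∑' s, (v (s, i) : ℝ≥0∞) ^ p ≤ 1)
    (h1 : ∑' j, ((e j : ℝ≥0∞) * v j) ^ p ≠ ⊤) (h2 : ∑' j, (e j : ℝ≥0∞) ^ q ≠ ⊤) :
    ∃ C, FB p (pp.h (fun j => e j * v j)) C := by
  have hp := hpq.pos
  have hq := hpq.symm.pos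
  set K : ℝ≥0∞ := 2 ^ (p - 1) * ((∑' j, ((e j : ℝ≥0∞) * v j) ^ p) +
    (∑' j, (e j : ℝ≥0∞) ^ q) ^ (p / q)) with hK
  have hKt : K ≠ ⊤ := by
    rw [hK]
    refine ENNReal.mul_ne_top ?_ (ENNReal.add_ne_top.mpr ⟨h1, ?_⟩)
    · exact ENNReal.rpow_ne_top_of_nonneg (by linarith [hpq.lt]) (by simp)
    · exact ENNReal.rpow_ne_top_of_nonneg (by positivity) h2
  refine ⟨K.toNNReal, FB_of_tsum hp fun X => ?_⟩
  rw [ENNReal.coe_toNNReal hKt]
  have := upper pp hpq (fun j => (e j : ℝ≥0∞)) (fun j => (v j : ℝ≥0∞)) hv X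
  refine le_trans (le_of_eq ?_) this
  congr 1; ext u
  rw [pp.tsum_h]
  congr 2

end Pool.Agent.Q86.PConv
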