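import Mathlib

/-!
Free subgroups of countable rank and the combinatorics of first letters.
-/

set_option autoImplicit false

namespace Pool.Agent.Q86.PConv

/-- the shift automorphisms of the free group on `ℤ` -/
noncomputable def shiftHom : Multiplicative ℤ →* MulAut (FreeGroup ℤ) where
  toFun n := FreeGroup.freeGroupCongr (Equiv.addRight n.toAdd)
  map_one' := by
    ext x
    induction x using FreeGroup.induction_on <;> simp_all
  map_mul' m n := by
    ext x
    induction x using FreeGroup.induction_on with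
    | C1 => simp
    | of x => simp [add_assoc, add_comm m.toAdd]
    | inv_of x h => simp [add_assoc, add_comm m.toAdd]
    | mul x y hx hy => rw [MulEquiv.map_mul, hx, hy, ← MulEquiv.map_mul]

/-- `i ↦ b^i a b^{-i}` -/
noncomputable def conjHom {G : Type*} [Group G] (a b : G) : FreeGroup ℤ →* G :=
  FreeGroup.lift (fun i : ℤ => b ^ i * a * (b ^ i)⁻¹)

theorem conjHom_injective_free :
    Function.Injective (conjHom (FreeGroup.of (0 : Fin 2)) (FreeGroup.of (1 : Fin 2))) := by
  let Φ : FreeGroup (Fin 2) →* (FreeGroup ℤ ⋊[shiftHom] Multiplicative ℤ) :=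
    FreeGroup.lift ![SemidirectProduct.inl (FreeGroup.of 0), SemidirectProduct.inr (Multiplicative.ofAdd 1)]
  have h : Φ.comp (conjHom (FreeGroup.of (0 : Fin 2)) (FreeGroup.of (1 : Fin 2)))
      = SemidirectProduct.inl := by
    ext i
    · simp only [Φ, conjHom, MonoidHom.comp_apply, FreeGroup.lift_apply_of, map_mul, map_inv,
        map_zpow, Matrix.cons_val_zero, Matrix.cons_val_one]
      rw [← map_zpow, ← map_inv, ← SemidirectProduct.inl_aut]
      simp [shiftHom]
    · simp [Φ, conjHom]
  intro x y hxy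
  have := congrArg Φ hxy
  have h2 : ∀ x, Φ (conjHom (FreeGroup.of (0 : Fin 2)) (FreeGroup.of (1 : Fin 2)) x)
      = SemidirectProduct.inl x := fun x => by
    rw [← h]; rfl
  rw [h2, h2] at this
  exact SemidirectProduct.inl_injective this

theorem conjHom_injective {G : Type*} [Group G] (a b : G)
    (hab : Function.Injective (FreeGroup.lift ![a, b])) :
    Function.Injective (conjHom a b) := by
  have h : conjHom a b = (FreeGroup.lift ![a, b]).comp
      (conjHom (FreeGroup.of (0 : Fin 2)) (FreeGroup.of (1 : Fin 2))) := by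
    ext i
    simp [conjHom]
  rw [h]
  exact hab.comp conjHom_injective_free

/-- an equivariant map onto the free group -/
theorem exists_equivariant {G F : Type*} [Group G] [Group F] (ψ : F →* G)
    (hψ : Function.Injective ψ) :
    ∃ θ : G → F, ∀ w z, θ (ψ w * z) = w * θ z := by
  classical
  let r : Setoid G := QuotientGroup.rightRel ψ.range
  have hout : ∀ z : G, ∃ w : F, ψ w = z * (Quotient.out (Quotient.mk r z))⁻¹ := by
    intro z
    have h1 : r.r (Quotient.out (Quotient.mk r z)) z := Quotient.mk_out z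
    have h2 := QuotientGroup.rightRel_apply.mp h1
    obtain ⟨w, hw⟩ := h2
    exact ⟨w, hw⟩
  choose θ hθ using hout
  refine ⟨θ, fun w z => hψ ?_⟩
  rw [map_mul, hθ, hθ]
  have : (Quotient.mk r (ψ w * z)) = Quotient.mk r z := by
    apply Quotient.sound
    show r.r _ _
    refine QuotientGroup.rightRel_apply.mpr ?_
    refine ⟨w⁻¹, ?_⟩
    simp
  rw [this, mul_assoc]

/-- The combinatorial data extracted from a free subgroup of rank two. -/
structure PingPong (G : Type*) [Group G] where
  a : G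
  x : ℕ → G
  P : ℕ → Set G
  Q : ℕ → Set G
  move : ∀ i z, x i * z ∈ P i ∨ z ∈ Q i
  disjQ : ∀ i j z, z ∈ Q i → z ∈ Q j → i = j
  disjP : ∀ i j (s t : ℕ) (u : G), (a ^ s)⁻¹ * u ∈ P i → (a ^ t)⁻¹ * u ∈ P j → s = t ∧ i = j
  inj1 : ∀ s t i j : ℕ, a ^ s * x i = a ^ t * x j → s = t ∧ i = j
  inj2 : ∀ s t i j : ℕ, (x i)⁻¹ * a ^ s = (x j)⁻¹ * a ^ t → s = t ∧ i = j

open Classical in
theorem exists_pingPong {G : Type*} [Group G]
    (h : ∃ a b : G, Function.Injective (FreeGroup.lift ![a, b])) : Nonempty (PingPong G) := by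
  obtain ⟨a, b, hab⟩ := h
  set ψ := conjHom a b with hψdef
  have hψ : Function.Injective ψ := conjHom_injective a b hab
  obtain ⟨θ, hθ⟩ := exists_equivariant ψ hψ
  let χ : FreeGroup ℤ →* Multiplicative (ℤ →₀ ℤ) :=
    FreeGroup.lift (fun i => Multiplicative.ofAdd (Finsupp.single i 1))
  have hχ : ∀ i, χ (FreeGroup.of i) = Multiplicative.ofAdd (Finsupp.single i 1) := by
    intro i; simp [χ]
  have key : ∀ (w : FreeGroup ℤ) (i : ℤ), w ∉ FreeGroup.startsWith (i, false) →
      FreeGroup.of i * w ∈ FreeGroup.startsWith (i, true) := by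
    intro w i hw
    exact FreeGroup.startsWith_mk_mul (w := (i, true)) w hw
  have hne : ∀ (w : FreeGroup ℤ) (u v : ℤ × Bool), w ∈ FreeGroup.startsWith u →
      w ∈ FreeGroup.startsWith v → u = v := by
    intro w u v hu hv
    by_contra hc
    exact Set.disjoint_left.mp (FreeGroup.startsWith.disjoint_iff_ne.mpr hc) hu hv
  have pow_mem : ∀ (w : FreeGroup ℤ) (i : ℕ) (n : ℕ),
      w ∈ FreeGroup.startsWith ((i : ℤ) + 1, true) →
      FreeGroup.of 0 ^ (n + 1) * w ∈ FreeGroup.startsWith (0, true) := by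
    intro w i n hw
    induction n with
    | zero =>
        rw [zero_add, pow_one]
        apply key
        intro h0
        have := hne _ _ _ hw h0
        simp at this
    | succ n ih =>
        rw [pow_succ' _ (n + 1), mul_assoc]
        apply key
        intro h0
        have := hne _ _ _ ih h0
        simp at this
  have half : ∀ i j (s t : ℕ) (u : G), s < t →
      θ ((ψ (FreeGroup.of 0) ^ s)⁻¹ * u) ∈ FreeGroup.startsWith (((i : ℕ) : ℤ) + 1, true) →
      θ ((ψ (FreeGroup.of 0) ^ t)⁻¹ * u) ∈ FreeGroup.startsWith (((j : ℕ) : ℤ) + 1, true) →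
      False := by
    intro i j s t u hst h1 h2
    obtain ⟨n, rfl⟩ := Nat.exists_eq_add_of_lt hst
    have h3 := pow_mem _ j n h2
    rw [← hθ, map_pow] at h3
    have h4 : ψ (FreeGroup.of 0) ^ (n + 1) * ((ψ (FreeGroup.of 0) ^ (s + n + 1))⁻¹ * u)
        = (ψ (FreeGroup.of 0) ^ s)⁻¹ * u := by
      rw [show s + n + 1 = s + (n + 1) from by ring, pow_add _ s (n + 1), mul_inv_rev]
      simp only [mul_assoc, mul_inv_cancel_left]
    rw [h4] at h3
    have := hne _ _ _ h1 h3
    simp at this
    omega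
  refine ⟨⟨ψ (FreeGroup.of 0), fun i => ψ (FreeGroup.of ((i : ℤ) + 1)),
    fun i => {z | θ z ∈ FreeGroup.startsWith ((i : ℤ) + 1, true)},
    fun i => {z | θ z ∈ FreeGroup.startsWith ((i : ℤ) + 1, false)}, ?_, ?_, ?_, ?_, ?_⟩⟩
  · intro i z
    by_cases hz : θ z ∈ FreeGroup.startsWith ((i : ℤ) + 1, false)
    · exact Or.inr hz
    · left
      rw [Set.mem_ofPred_eq, hθ]
      exact key _ _ hz
  · intro i j z hi hj
    have := hne _ _ _ hi hj
    simpa using this
  · intro i j s t u h1 h2
    have hst : s = t := by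
      rcases lt_trichotomy s t with h | h | h
      · exact (half i j s t u h h1 h2).elim
      · exact h
      · exact (half j i t s u h h2 h1).elim
    subst hst
    have := hne _ _ _ h1 h2
    exact ⟨rfl, by simpa using this⟩
  · intro s t i j hh
    have h1 : FreeGroup.of 0 ^ s * FreeGroup.of ((i : ℤ) + 1)
        = FreeGroup.of 0 ^ t * FreeGroup.of ((j : ℤ) + 1) := by
      apply hψ
      simpa [map_mul, map_pow] using hh
    have h2 := congrArg (fun w => (Multiplicative.toAdd (χ w))) h1
    simp only [map_mul, map_pow, hχ, toAdd_mul, toAdd_pow, toAdd_ofAdd] at h2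
    have h3 := DFunLike.congr_fun h2 0
    have h4 := DFunLike.congr_fun h2 ((i : ℤ) + 1)
    have hi0 : ((i : ℤ) + 1) ≠ 0 := by omega
    have hj0 : ((j : ℤ) + 1) ≠ 0 := by omega
    simp [Finsupp.single_apply, hi0, hi0.symm, hj0.symm] at h3 h4
    refine ⟨by exact_mod_cast h3, h4.symm⟩
  · intro s t i j hh
    have h1 : (FreeGroup.of ((i : ℤ) + 1))⁻¹ * FreeGroup.of 0 ^ s
        = (FreeGroup.of ((j : ℤ) + 1))⁻¹ * FreeGroup.of 0 ^ t := by
      apply hψ
      simpa [map_mul, map_pow] using hh
    have h2 := congrArg (fun w => (Multiplicative.toAdd (χ w))) h1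
    simp only [map_mul, map_pow, map_inv, hχ, toAdd_mul, toAdd_pow, toAdd_inv, toAdd_ofAdd] at h2
    have h3 := DFunLike.congr_fun h2 0
    have h4 := DFunLike.congr_fun h2 ((i : ℤ) + 1)
    have hi0 : ((i : ℤ) + 1) ≠ 0 := by omega
    have hj0 : ((j : ℤ) + 1) ≠ 0 := by omega
    simp [Finsupp.single_apply, hi0, hi0.symm, hj0.symm] at h3 h4
    refine ⟨by exact_mod_cast h3, h4.symm⟩

end Pool.Agent.Q86.PConv
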