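import Pool.Agent.Q86.PConv.Dual

set_option autoImplicit false

namespace Pool.Agent.Q86.PConv

open scoped ENNReal NNReal

/-- weights: `(i+1)^α` for `s < (i+1)^K`, and `0` otherwise -/
noncomputable def gw (K : ℕ) (α : ℝ) (j : ℕ × ℕ) : ℝ≥0 :=
  if j.1 < (j.2 + 1) ^ K then ((j.2 : ℝ≥0) + 1) ^ α else 0

theorem gw_mul (K : ℕ) (α β : ℝ) (j : ℕ × ℕ) : gw K α j * gw K β j = gw K (α + β) j := by
  unfold gw
  split_ifs
  · rw [← NNReal.rpow_add (by positivity)]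
  · simp

theorem gw_rpow (K : ℕ) (α : ℝ) {p : ℝ} (hp : 0 < p) (j : ℕ × ℕ) :
    gw K α j ^ p = gw K (α * p) j := by
  unfold gw
  split_ifs
  · rw [← NNReal.rpow_mul]
  · exact NNReal.zero_rpow hp.ne'

theorem gw_tsum (K : ℕ) (α : ℝ) (i : ℕ) :
    ∑' s, (gw K α (s, i) : ℝ≥0∞) = ((((i : ℝ≥0) + 1) ^ ((K : ℝ) + α) : ℝ≥0) : ℝ≥0∞) := by
  rw [tsum_eq_sum (s := Finset.range ((i + 1) ^ K))]
  · rw [Finset.sum_congr rfl (g := fun _ => ((((i : ℝ≥0) + 1) ^ α : ℝ≥0) : ℝ≥0∞))]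
    · rw [Finset.sum_const, Finset.card_range, nsmul_eq_mul, NNReal.rpow_add (by positivity),
        NNReal.rpow_natCast]
      push_cast
      rfl
    · intro s hs
      rw [gw, if_pos (Finset.mem_range.mp hs)]
  · intro s hs
    rw [gw, if_neg (by simpa using hs)]
    simp

theorem gw_tsum_ne_top (K : ℕ) (α : ℝ) (h : (K : ℝ) + α < -1) :
    ∑' j, (gw K α j : ℝ≥0∞) ≠ ⊤ := by
  have h1 : ∑' j, (gw K α j : ℝ≥0∞) = ∑' i : ℕ, ∑' s : ℕ, (gw K α (s, i) : ℝ≥0∞) := by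
    rw [ENNReal.tsum_prod (f := fun s i => (gw K α (s, i) : ℝ≥0∞)), ENNReal.tsum_comm]
  rw [h1]
  simp only [gw_tsum]
  rw [ENNReal.tsum_coe_ne_top_iff_summable]
  have := (NNReal.summable_nat_add_iff (f := fun n : ℕ => (n : ℝ≥0) ^ ((K : ℝ) + α)) 1).mpr
    (NNReal.summable_rpow.mpr h)
  refine this.congr fun n => ?_
  push_cast
  rfl

variable {G : Type*} [Group G]

theorem exists_FB (pp : PingPong G) {p q : ℝ} (hpq : p.HolderConjugate q) (hp2 : p < 2)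
    (K : ℕ) (hK : 1 ≤ (K : ℝ) * (p - 1)) :
    ∃ C, FB p (pp.h (gw K (-((K : ℝ) + 1 / 2)))) C := by
  have hp := hpq.pos
  have hp1 := hpq.lt
  have hq := hpq.symm.pos
  have hqp : q = p / (p - 1) := hpq.conjugate_eq
  have hq2 : 2 < q := by
    rw [hqp, lt_div_iff₀ (by linarith)]; linarith
  have hqp1 : q / p = q - 1 := by
    have := hpq.symm.sub_one_mul_conj
    rw [div_eq_iff hp.ne']
    linarith
  have h := pp.FB_h hpq (gw K ((K : ℝ) / p - ((K : ℝ) + 1 / 2))) (gw K (-((K : ℝ) / p))) ?_ ?_ ?_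
  · have e : (fun j => gw K ((K : ℝ) / p - ((K : ℝ) + 1 / 2)) j * gw K (-((K : ℝ) / p)) j)
        = gw K (-((K : ℝ) + 1 / 2)) := by
      funext j
      rw [gw_mul]
      congr 1; ring
    rw [e] at h
    exact h
  · intro i
    have e : ∀ s, ((gw K (-((K : ℝ) / p)) (s, i) : ℝ≥0) : ℝ≥0∞) ^ p
        = (gw K (-(K : ℝ)) (s, i) : ℝ≥0∞) := by
      intro s
      rw [← ENNReal.coe_rpow_of_nonneg _ hp.le, gw_rpow K _ hp]
      congr 2; field_simp
    simp only [e]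
    rw [gw_tsum]
    simp
  · have e : ∀ j, ((gw K ((K : ℝ) / p - ((K : ℝ) + 1 / 2)) j : ℝ≥0∞) *
        (gw K (-((K : ℝ) / p)) j : ℝ≥0∞)) ^ p
        = (gw K (-((K : ℝ) + 1 / 2) * p) j : ℝ≥0∞) := by
      intro j
      rw [← ENNReal.coe_mul, ← ENNReal.coe_rpow_of_nonneg _ hp.le, gw_mul, gw_rpow K _ hp]
      congr 2; ring
    simp only [e]
    apply gw_tsum_ne_top
    nlinarith
  · have e : ∀ j, ((gw K ((K : ℝ) / p - ((K : ℝ) + 1 / 2)) j : ℝ≥0∞)) ^ q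
        = (gw K (((K : ℝ) / p - ((K : ℝ) + 1 / 2)) * q) j : ℝ≥0∞) := by
      intro j
      rw [← ENNReal.coe_rpow_of_nonneg _ hq.le, gw_rpow K _ hq]
    simp only [e]
    apply gw_tsum_ne_top
    have : ((K : ℝ) / p - ((K : ℝ) + 1 / 2)) * q = K * (q / p) - K * q - q / 2 := by ring
    rw [this, hqp1]
    nlinarith

open Classical in
theorem lower (pp : PingPong G) {p : ℝ} (hp : 0 < p) (K : ℕ) (C : ℝ≥0)
    (hF : FB p (fun g => pp.h (gw K (-((K : ℝ) + 1 / 2))) g⁻¹) C) (M : ℕ) :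
    ((M : ℝ≥0) + 1) * ((((M : ℝ≥0) + 1) ^ K) * (2 * ((M : ℝ≥0) + 1)) ^ (-((K : ℝ) + 1 / 2))) ^ p
      ≤ 2 * C := by
  set n : ℕ := (M + 1) ^ K with hn
  have hnpos : 0 < n := by positivity
  set c : ℝ≥0 := (2 * ((M : ℝ≥0) + 1)) ^ (-((K : ℝ) + 1 / 2)) with hc
  have hinja : ∀ s t : ℕ, pp.a ^ s = pp.a ^ t → s = t := by
    intro s t h
    exact (pp.inj1 s t 0 0 (by rw [h])).1
  set U : Finset G := (Finset.range n ×ˢ Finset.Icc M (2 * M)).image
    (fun j : ℕ × ℕ => (pp.x j.2)⁻¹ * pp.a ^ j.1) with hU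
  set V : Finset G := (Finset.range (2 * n)).image (fun t : ℕ => pp.a ^ t) with hV
  have h1 := hF U V (fun _ => 1)
  have hVc : ∑ v ∈ V, (1 : ℝ≥0) ^ p ≤ 2 * n := by
    simp only [NNReal.one_rpow, Finset.sum_const, nsmul_eq_mul, mul_one]
    have : V.card ≤ 2 * n := by
      refine Finset.card_image_le.trans ?_
      simp
    exact_mod_cast this
  have inner : ∀ j ∈ Finset.range n ×ˢ Finset.Icc M (2 * M),
      (n : ℝ≥0) * c ≤ ∑ v ∈ V, pp.h (gw K (-((K : ℝ) + 1 / 2)))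
        (((pp.x j.2)⁻¹ * pp.a ^ j.1) * v⁻¹)⁻¹ * 1 := by
    rintro ⟨m, i⟩ hj
    simp only [Finset.mem_product, Finset.mem_range, Finset.mem_Icc] at hj
    obtain ⟨hm, hMi, hi2⟩ := hj
    calc (n : ℝ≥0) * c = ∑ s ∈ Finset.range n, c := by simp
      _ ≤ ∑ s ∈ Finset.range n, pp.h (gw K (-((K : ℝ) + 1 / 2))) (pp.w (s, i)) := by
          refine Finset.sum_le_sum fun s hs => ?_
          rw [pp.h_w, gw, if_pos]
          · rw [hc]
            rw [NNReal.rpow_neg, NNReal.rpow_neg]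
            refine inv_anti₀ (NNReal.rpow_pos (by positivity)) (NNReal.rpow_le_rpow ?_ ?_)
            · have : ((i : ℝ≥0)) ≤ 2 * M := by exact_mod_cast hi2
              calc ((i : ℝ≥0)) + 1 ≤ 2 * M + 1 := by gcongr
                _ ≤ 2 * M + 2 := by gcongr; norm_num
                _ = _ := by ring
            · have : (0:ℝ) ≤ K := by positivity
              linarith
          · refine lt_of_lt_of_le (Finset.mem_range.mp hs) ?_
            show n ≤ (i + 1) ^ K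
            exact Nat.pow_le_pow_left (by omega) K
      _ = ∑ v ∈ (Finset.range n).image (fun s : ℕ => pp.a ^ (m + s)),
            pp.h (gw K (-((K : ℝ) + 1 / 2))) (((pp.x i)⁻¹ * pp.a ^ m) * v⁻¹)⁻¹ := by
          rw [Finset.sum_image]
          · refine Finset.sum_congr rfl fun s _ => ?_
            congr 1
            simp only [PingPong.w, mul_inv_rev, inv_inv]
            rw [show m + s = s + m from Nat.add_comm _ _, pow_add]
            group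
          · intro s _ t _ hst
            have := hinja _ _ hst
            omega
      _ ≤ ∑ v ∈ V, pp.h (gw K (-((K : ℝ) + 1 / 2))) (((pp.x i)⁻¹ * pp.a ^ m) * v⁻¹)⁻¹ := by
          refine Finset.sum_le_sum_of_subset ?_
          intro v hv
          rw [Finset.mem_image] at hv
          obtain ⟨s, hs, rfl⟩ := hv
          rw [hV, Finset.mem_image]
          refine ⟨m + s, ?_, rfl⟩
          have := Finset.mem_range.mp hs
          rw [Finset.mem_range]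
          omega
      _ = _ := by simp
  have hUs : ((n : ℝ≥0) * ((M : ℝ≥0) + 1)) * ((n : ℝ≥0) * c) ^ p ≤ ∑ u ∈ U,
      (∑ v ∈ V, pp.h (gw K (-((K : ℝ) + 1 / 2))) (u * v⁻¹)⁻¹ * 1) ^ p := by
    rw [hU, Finset.sum_image]
    · calc _ = ∑ j ∈ Finset.range n ×ˢ Finset.Icc M (2 * M), ((n : ℝ≥0) * c) ^ p := by
            rw [Finset.sum_const, Finset.card_product, Finset.card_range, Nat.card_Icc,
              nsmul_eq_mul]
            congr 1
            rw [show 2 * M + 1 - M = M + 1 by omega]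
            push_cast
            rfl
        _ ≤ _ := Finset.sum_le_sum fun j hj => NNReal.rpow_le_rpow (inner j hj) hp.le
    · rintro ⟨s, i⟩ _ ⟨t, j⟩ _ hst
      obtain ⟨h1, h2⟩ := pp.inj2 s t i j hst
      simp [h1, h2]
  have h2 : ((n : ℝ≥0) * ((M : ℝ≥0) + 1)) * ((n : ℝ≥0) * c) ^ p ≤ C * (2 * n) :=
    hUs.trans (h1.trans (mul_le_mul' le_rfl hVc))
  have h3 : (n : ℝ≥0) * (((M : ℝ≥0) + 1) * ((n : ℝ≥0) * c) ^ p) ≤ n * (2 * C) := by
    calc _ = ((n : ℝ≥0) * ((M : ℝ≥0) + 1)) * ((n : ℝ≥0) * c) ^ p := by ring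
      _ ≤ _ := h2
      _ = _ := by ring
  have h4 := le_of_mul_le_mul_left h3 (by exact_mod_cast hnpos)
  have hncast : (n : ℝ≥0) = ((M : ℝ≥0) + 1) ^ K := by rw [hn]; push_cast; rfl
  rw [hncast] at h4
  exact h4

theorem not_FB (pp : PingPong G) {p : ℝ} (hp : 0 < p) (hp2 : p < 2) (K : ℕ) (C : ℝ≥0) :
    ¬ FB p (fun g => pp.h (gw K (-((K : ℝ) + 1 / 2))) g⁻¹) C := by
  intro hF
  have h := lower pp hp K C hF
  set c0 : ℝ≥0 := (2 ^ (-((K : ℝ) + 1 / 2))) ^ p with hc0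
  have hc0pos : 0 < c0 := by
    rw [hc0]; exact NNReal.rpow_pos (NNReal.rpow_pos (by norm_num))
  have h2 : ∀ M : ℕ, ((M : ℝ≥0) + 1) ^ (1 - p / 2) * c0 ≤ 2 * C := by
    intro M
    refine le_trans (le_of_eq ?_) (h M)
    have hM : ((M : ℝ≥0) + 1) ≠ 0 := by positivity
    have e1 : (((M : ℝ≥0) + 1) ^ K) * (2 * ((M : ℝ≥0) + 1)) ^ (-((K : ℝ) + 1 / 2))
        = 2 ^ (-((K : ℝ) + 1 / 2)) * ((M : ℝ≥0) + 1) ^ (-(1 / 2) : ℝ) := by
      rw [NNReal.mul_rpow, ← NNReal.rpow_natCast]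
      rw [show ∀ a b c : ℝ≥0, a * (b * c) = b * (a * c) from fun a b c => by ring,
        ← NNReal.rpow_add hM]
      congr 2; ring
    have e2 : (((M : ℝ≥0) + 1) ^ (-(1 / 2) : ℝ)) ^ p = ((M : ℝ≥0) + 1) ^ (-(1 / 2) * p : ℝ) :=
      (NNReal.rpow_mul _ _ _).symm
    have e3 : ((M : ℝ≥0) + 1) ^ (1 - p / 2) = ((M : ℝ≥0) + 1) * ((M : ℝ≥0) + 1) ^ (-(1 / 2) * p : ℝ) := by
      rw [show 1 - p / 2 = 1 + (-(1 / 2) * p : ℝ) by ring, NNReal.rpow_add hM, NNReal.rpow_one]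
    rw [e1, NNReal.mul_rpow, ← hc0, e2, e3]
    ring
  have hexp : 0 < 1 - p / 2 := by linarith
  obtain ⟨M, hM⟩ := exists_nat_gt ((((2 * C / c0 : ℝ≥0)) : ℝ) ^ (1 / (1 - p / 2)))
  have h3 := h2 M
  have h4 : ((M : ℝ≥0) + 1) ^ (1 - p / 2) ≤ 2 * C / c0 := by
    rw [le_div_iff₀ hc0pos]; exact h3
  have h5 : (((M : ℝ) + 1)) ^ (1 - p / 2) ≤ ((2 * C / c0 : ℝ≥0) : ℝ) := by exact_mod_cast h4
  have h6 : (M : ℝ) + 1 ≤ ((2 * C / c0 : ℝ≥0) : ℝ) ^ (1 / (1 - p / 2)) := by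
    have := Real.rpow_le_rpow (by positivity) h5 (z := 1 / (1 - p / 2)) (by positivity)
    rwa [← Real.rpow_mul (by positivity), mul_one_div_cancel hexp.ne', Real.rpow_one] at this
  linarith

theorem main_lt_two (pp : PingPong G) (r : ℝ) (hr1 : 1 < r) (hr2 : r < 2) :
    ∃ (h : G → ℝ≥0) (C : ℝ≥0), FB r h C ∧ ∀ C', ¬ FB r (fun g => h g⁻¹) C' := by
  obtain ⟨K, hK⟩ := exists_nat_ge (1 / (r - 1))
  have hK' : 1 ≤ (K : ℝ) * (r - 1) := by
    rwa [div_le_iff₀ (by linarith)] at hK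
  have hrq : r.HolderConjugate (r / (r - 1)) := Real.HolderConjugate.conjExponent hr1
  obtain ⟨C, hC⟩ := exists_FB pp hrq hr2 K hK'
  exact ⟨_, C, hC, fun C' => not_FB pp (by linarith) hr2 K C'⟩

theorem main_FB (pp : PingPong G) (p : ℝ) (hp1 : 1 < p) (hp2 : p ≠ 2) :
    ∃ (h : G → ℝ≥0) (C : ℝ≥0), FB p h C ∧ ∀ C', ¬ FB p (fun g => h g⁻¹) C' := by
  rcases lt_or_gt_of_ne hp2 with hlt | hgt
  · exact main_lt_two pp p hp1 hlt
  · have hpq0 : p.HolderConjugate (p / (p - 1)) := Real.HolderConjugate.conjExponent hp1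
    obtain ⟨q, hq⟩ : ∃ q, q = p / (p - 1) := ⟨_, rfl⟩
    rw [← hq] at hpq0
    have hq1 : 1 < q := hpq0.symm.lt
    have hq2 : q < 2 := by
      rw [hq, div_lt_iff₀ (by linarith)]
      linarith
    obtain ⟨h, C, hC, hn⟩ := main_lt_two pp q hq1 hq2
    refine ⟨fun g => h g⁻¹, _, hC.dual hpq0.symm, fun C' hC' => ?_⟩
    have h3 : FB p h C' := by simpa only [inv_inv] using hC'
    exact hn _ (h3.dual hpq0)

theorem main_conv (pp : PingPong G) (p : ℝ) (hp1 : 1 < p) (hp2 : p ≠ 2) :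
    ∃ h : G → ℝ≥0, Conv p (fun g => ((h g : ℝ) : ℂ)) ∧
      ¬ Conv p (fun g => ((h g⁻¹ : ℝ) : ℂ)) := by
  obtain ⟨h, C, hC, hn⟩ := main_FB pp p hp1 hp2
  have hp0 : 0 < p := by linarith
  refine ⟨h, conv_of_FB hp0 hC, fun hc => ?_⟩
  obtain ⟨C', hC'⟩ := FB_of_conv (h := fun g => h g⁻¹) hp0 hc
  exact hn C' hC'

end Pool.Agent.Q86.PConv
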