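import Pool.Agent.Q86.PConv.Free

set_option autoImplicit false

namespace Pool.Agent.Q86.PConv

open scoped ENNReal NNReal

theorem tsum_holder {ι : Type*} {p q : ℝ} (hpq : p.HolderConjugate q) (f g : ι → ℝ≥0∞) :
    ∑' i, f i * g i ≤ (∑' i, f i ^ p) ^ (1 / p) * (∑' i, g i ^ q) ^ (1 / q) := by
  rw [ENNReal.tsum_eq_iSup_sum]
  refine iSup_le fun s => ?_
  refine (ENNReal.inner_le_Lp_mul_Lq s f g hpq).trans ?_
  refine mul_le_mul' ?_ ?_
  · exact ENNReal.rpow_le_rpow (ENNReal.sum_le_tsum s) (by have := hpq.pos; positivity)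
  · exact ENNReal.rpow_le_rpow (ENNReal.sum_le_tsum s) (by have := hpq.symm.pos; positivity)

variable {G : Type*} [Group G]

/-- the support points `a^s x_i` -/
def PingPong.w (pp : PingPong G) (j : ℕ × ℕ) : G := pp.a ^ j.1 * pp.x j.2

open Classical in
theorem upper_plus (pp : PingPong G) {p : ℝ} (hp : 0 < p) (d : ℕ × ℕ → ℝ≥0∞) (X : G → ℝ≥0∞) :
    ∑' u, (∑' j : ℕ × ℕ, if (pp.a ^ j.1)⁻¹ * u ∈ pp.P j.2 then d j * X ((pp.w j)⁻¹ * u) else 0) ^ p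
      ≤ (∑' j, d j ^ p) * ∑' u, X u ^ p := by
  have h1 : ∀ u, (∑' j : ℕ × ℕ, if (pp.a ^ j.1)⁻¹ * u ∈ pp.P j.2 then d j * X ((pp.w j)⁻¹ * u)
      else 0) ^ p ≤ ∑' j : ℕ × ℕ, d j ^ p * X ((pp.w j)⁻¹ * u) ^ p := by
    intro u
    by_cases h : ∃ j : ℕ × ℕ, (pp.a ^ j.1)⁻¹ * u ∈ pp.P j.2
    · obtain ⟨j0, hj0⟩ := h
      rw [tsum_eq_single j0]
      · rw [if_pos hj0, ENNReal.mul_rpow_of_nonneg _ _ hp.le]
        exact ENNReal.le_tsum (f := fun j => d j ^ p * X ((pp.w j)⁻¹ * u) ^ p) j0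
      · intro j hj
        rw [if_neg]
        intro hc
        obtain ⟨h1, h2⟩ := pp.disjP _ _ _ _ _ hc hj0
        exact hj (Prod.ext h1 h2)
    · push Not at h
      have : (∑' j : ℕ × ℕ, if (pp.a ^ j.1)⁻¹ * u ∈ pp.P j.2 then d j * X ((pp.w j)⁻¹ * u)
          else 0) = 0 := by
        rw [ENNReal.tsum_eq_zero]
        intro j
        rw [if_neg (h j)]
      rw [this, ENNReal.zero_rpow_of_pos hp]
      exact zero_le
  calc _ ≤ ∑' u, ∑' j : ℕ × ℕ, d j ^ p * X ((pp.w j)⁻¹ * u) ^ p := ENNReal.tsum_le_tsum h1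
    _ = ∑' j : ℕ × ℕ, ∑' u, d j ^ p * X ((pp.w j)⁻¹ * u) ^ p := ENNReal.tsum_comm
    _ = ∑' j : ℕ × ℕ, d j ^ p * ∑' u, X u ^ p := by
        congr 1; ext j
        rw [ENNReal.tsum_mul_left]
        congr 1
        exact (Equiv.mulLeft (pp.w j)⁻¹).tsum_eq (fun u => X u ^ p)
    _ = _ := ENNReal.tsum_mul_right

open Classical in
theorem upper_minus (pp : PingPong G) {p q : ℝ} (hpq : p.HolderConjugate q)
    (e v : ℕ × ℕ → ℝ≥0∞) (hv : ∀ i, ∑' s, v (s, i) ^ p ≤ 1) (X : G → ℝ≥0∞) :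
    ∑' u, (∑' j : ℕ × ℕ, if (pp.a ^ j.1)⁻¹ * u ∈ pp.P j.2 then 0
        else e j * v j * X ((pp.w j)⁻¹ * u)) ^ p
      ≤ (∑' j, e j ^ q) ^ (p / q) * ∑' u, X u ^ p := by
  have hp := hpq.pos
  have hq := hpq.symm.pos
  have h1 : ∀ u, (∑' j : ℕ × ℕ, if (pp.a ^ j.1)⁻¹ * u ∈ pp.P j.2 then 0
        else e j * v j * X ((pp.w j)⁻¹ * u)) ^ p
      ≤ (∑' j, e j ^ q) ^ (p / q) * ∑' j : ℕ × ℕ,
        if (pp.a ^ j.1)⁻¹ * u ∈ pp.P j.2 then 0 else v j ^ p * X ((pp.w j)⁻¹ * u) ^ p := by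
    intro u
    have h2 := tsum_holder hpq.symm e (fun j : ℕ × ℕ =>
      if (pp.a ^ j.1)⁻¹ * u ∈ pp.P j.2 then 0 else v j * X ((pp.w j)⁻¹ * u))
    have h3 : (∑' j : ℕ × ℕ, if (pp.a ^ j.1)⁻¹ * u ∈ pp.P j.2 then 0
        else e j * v j * X ((pp.w j)⁻¹ * u)) = ∑' j : ℕ × ℕ, e j *
        (if (pp.a ^ j.1)⁻¹ * u ∈ pp.P j.2 then 0 else v j * X ((pp.w j)⁻¹ * u)) := by
      congr 1; ext j
      split_ifs
      · simp
      · ring
    rw [h3]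
    refine (ENNReal.rpow_le_rpow h2 hp.le).trans (le_of_eq ?_)
    rw [ENNReal.mul_rpow_of_nonneg _ _ hp.le, ← ENNReal.rpow_mul, ← ENNReal.rpow_mul]
    rw [show 1 / p * p = 1 by field_simp, ENNReal.rpow_one, show 1 / q * p = p / q by ring]
    congr 1
    congr 1; ext j
    split_ifs
    · exact ENNReal.zero_rpow_of_pos hp
    · exact ENNReal.mul_rpow_of_nonneg _ _ hp.le
  have h4 : ∑' u, ∑' j : ℕ × ℕ, (if (pp.a ^ j.1)⁻¹ * u ∈ pp.P j.2 then 0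
      else v j ^ p * X ((pp.w j)⁻¹ * u) ^ p) ≤ ∑' u, X u ^ p := by
    rw [ENNReal.tsum_comm]
    have h5 : ∀ j : ℕ × ℕ, (∑' u, if (pp.a ^ j.1)⁻¹ * u ∈ pp.P j.2 then 0
      else v j ^ p * X ((pp.w j)⁻¹ * u) ^ p) ≤ v j ^ p *
        ∑' u, if u ∈ pp.Q j.2 then X u ^ p else 0 := by
      intro j
      rw [← (Equiv.mulLeft (pp.w j)).tsum_eq, ← ENNReal.tsum_mul_left]
      refine ENNReal.tsum_le_tsum fun u => ?_
      have e1 : (pp.a ^ j.1)⁻¹ * ((Equiv.mulLeft (pp.w j)) u) = pp.x j.2 * u := by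
        simp [PingPong.w]
      have e2 : (pp.w j)⁻¹ * ((Equiv.mulLeft (pp.w j)) u) = u := by simp
      rw [e1, e2]
      rcases pp.move j.2 u with h | h
      · rw [if_pos h]; exact zero_le
      · rw [if_pos h]
        split_ifs
        · exact zero_le
        · exact le_rfl
    calc _ ≤ ∑' j : ℕ × ℕ, v j ^ p * ∑' u, (if u ∈ pp.Q j.2 then X u ^ p else 0) :=
          ENNReal.tsum_le_tsum h5
      _ = ∑' i : ℕ, ∑' s : ℕ, v (s, i) ^ p * ∑' u, (if u ∈ pp.Q i then X u ^ p else 0) := by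
          rw [ENNReal.tsum_prod (f := fun s i => v (s, i) ^ p *
            ∑' u, (if u ∈ pp.Q i then X u ^ p else 0)), ENNReal.tsum_comm]
      _ ≤ ∑' i : ℕ, ∑' u, (if u ∈ pp.Q i then X u ^ p else 0) := by
          refine ENNReal.tsum_le_tsum fun i => ?_
          rw [ENNReal.tsum_mul_right]
          calc _ ≤ 1 * _ := mul_le_mul' (hv i) le_rfl
            _ = _ := one_mul _
      _ = ∑' u, ∑' i : ℕ, (if u ∈ pp.Q i then X u ^ p else 0) := ENNReal.tsum_comm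
      _ ≤ ∑' u, X u ^ p := by
          refine ENNReal.tsum_le_tsum fun u => ?_
          by_cases h : ∃ i, u ∈ pp.Q i
          · obtain ⟨i0, hi0⟩ := h
            rw [tsum_eq_single i0]
            · rw [if_pos hi0]
            · intro i hi
              rw [if_neg]
              intro hc
              exact hi (pp.disjQ _ _ _ hc hi0)
          · push Not at h
            rw [ENNReal.tsum_eq_zero.mpr fun i => if_neg (h i)]
            exact zero_le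
  calc _ ≤ ∑' u, (∑' j, e j ^ q) ^ (p / q) * ∑' j : ℕ × ℕ,
        (if (pp.a ^ j.1)⁻¹ * u ∈ pp.P j.2 then 0 else v j ^ p * X ((pp.w j)⁻¹ * u) ^ p) :=
        ENNReal.tsum_le_tsum h1
    _ ≤ _ := by
        rw [ENNReal.tsum_mul_left]
        exact mul_le_mul' le_rfl h4

open Classical in
theorem upper (pp : PingPong G) {p q : ℝ} (hpq : p.HolderConjugate q)
    (e v : ℕ × ℕ → ℝ≥0∞) (hv : ∀ i, ∑' s, v (s, i) ^ p ≤ 1) (X : G → ℝ≥0∞) :
    ∑' u, (∑' j : ℕ × ℕ, e j * v j * X ((pp.w j)⁻¹ * u)) ^ p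
      ≤ 2 ^ (p - 1) * ((∑' j, (e j * v j) ^ p) + (∑' j, e j ^ q) ^ (p / q)) * ∑' u, X u ^ p := by
  have h1 : ∀ u, (∑' j : ℕ × ℕ, e j * v j * X ((pp.w j)⁻¹ * u)) ^ p ≤
      2 ^ (p - 1) * ((∑' j : ℕ × ℕ, if (pp.a ^ j.1)⁻¹ * u ∈ pp.P j.2 then
        (e j * v j) * X ((pp.w j)⁻¹ * u) else 0) ^ p +
      (∑' j : ℕ × ℕ, if (pp.a ^ j.1)⁻¹ * u ∈ pp.P j.2 then 0
        else e j * v j * X ((pp.w j)⁻¹ * u)) ^ p) := by
    intro u
    refine le_trans (le_of_eq ?_) (ENNReal.rpow_add_le_mul_rpow_add_rpow _ _ hpq.lt.le)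
    congr 1
    rw [← ENNReal.tsum_add]
    congr 1; ext j
    split_ifs <;> simp
  refine (ENNReal.tsum_le_tsum h1).trans ?_
  rw [ENNReal.tsum_mul_left, ENNReal.tsum_add, mul_assoc, add_mul]
  refine mul_le_mul' le_rfl (add_le_add ?_ ?_)
  · exact upper_plus pp hpq.pos (fun j => e j * v j) X
  · exact upper_minus pp hpq e v hv X

end Pool.Agent.Q86.PConv
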